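import Mathlib
import Pool.Agent.W39.FredPair.Main

set_option autoImplicit false

namespace Pool.Agent.Results.MP_b56e9d_an.IndexZeroIff

open Pool.Agent.W39.FredPair

universe u

section defs

variable {H : Type u} [NormedAddCommGroup H] [InnerProductSpace ℂ H]

/-- First boundary map of the Koszul complex of a pair: `x ↦ (S₁ x, S₂ x)`. -/
def koszulD0 (S₁ S₂ : H →L[ℂ] H) (x : H) : H × H := (S₁ x, S₂ x)

/-- Second boundary map of the Koszul complex of a pair: `(x, y) ↦ -S₂ x + S₁ y`. -/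
def koszulD1 (S₁ S₂ : H →L[ℂ] H) (p : H × H) : H := -(S₂ p.1) + S₁ p.2

/-- Exactness of the Koszul complex (Taylor invertibility) of a pair. -/
def TaylorInvertible (S₁ S₂ : H →L[ℂ] H) : Prop :=
  Function.Injective (koszulD0 S₁ S₂) ∧ Function.Exact (koszulD0 S₁ S₂) (koszulD1 S₁ S₂) ∧
    Function.Surjective (koszulD1 S₁ S₂)

/-- `T` is Fredholm: closed range, finite-dimensional kernel and cokernel. -/
def IsFredholm (T : H →L[ℂ] H) : Prop :=
  IsClosed (LinearMap.range T.toLinearMap : Set H) ∧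
  FiniteDimensional ℂ (LinearMap.ker T.toLinearMap) ∧
  FiniteDimensional ℂ (H ⧸ LinearMap.range T.toLinearMap)

/-- There are compact `K₁, K₂` such that `T + K₁` and `T + K₂` commute and form a
Taylor invertible pair. -/
def HasInvertiblePerturbation (T : H →L[ℂ] H) : Prop :=
  ∃ K₁ K₂ : H →L[ℂ] H, IsCompactOperator K₁ ∧ IsCompactOperator K₂ ∧
    (T + K₁) * (T + K₂) = (T + K₂) * (T + K₁) ∧ TaylorInvertible (T + K₁) (T + K₂)

end defs

section necessity

variable {H : Type u} [NormedAddCommGroup H] [InnerProductSpace ℂ H] [CompleteSpace H]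

theorem necessity {T : H →L[ℂ] H} (hT : IsFredholm T) (h : HasInvertiblePerturbation T) :
    Module.finrank ℂ (LinearMap.ker T.toLinearMap)
      = Module.finrank ℂ (H ⧸ LinearMap.range T.toLinearMap) := by
  obtain ⟨K₁, K₂, hK₁, hK₂, hcomm, hinj, -, hsurj⟩ := h
  have hK : IsCompactOperator (K₂ - K₁ : H →L[ℂ] H) := hK₂.sub hK₁
  have hB : ∀ x, (K₂ - K₁) x = (T + K₂) x - (T + K₁) x := by
    intro x
    simp
  refine index_eq hT hK₁ hK ?_ ?_ ?_
  · intro x
    have h1 : (T + K₁) ((T + K₂) x) = (T + K₂) ((T + K₁) x) :=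
      congrArg (fun f : H →L[ℂ] H => f x) hcomm
    rw [hB, hB, map_sub, h1]
  · intro x hx hKx
    apply hinj
    rw [hB, hx, sub_zero] at hKx
    simp only [koszulD0, map_zero]
    rw [hx, hKx]
  · intro y
    obtain ⟨⟨a, b⟩, hab⟩ := hsurj y
    refine ⟨b - a, -a, ?_⟩
    rw [← hab, hB]
    simp only [koszulD1, map_sub, map_neg]
    abel

theorem sufficiency {T : H →L[ℂ] H} (hT : IsFredholm T)
    (h : Module.finrank ℂ (LinearMap.ker T.toLinearMap)
      = Module.finrank ℂ (H ⧸ LinearMap.range T.toLinearMap)) :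
    HasInvertiblePerturbation T := by
  obtain ⟨hR, hN, hW⟩ := hT
  set N := LinearMap.ker T.toLinearMap with hNd
  set R := LinearMap.range T.toLinearMap with hRd
  have : CompleteSpace R := hR.completeSpace_coe
  have hc : IsCompl R Rᗮ := R.isCompl_orthogonal
  let eq : (H ⧸ R) ≃ₗ[ℂ] Rᗮ := Submodule.quotientEquivOfIsCompl R Rᗮ hc
  have hRo : FiniteDimensional ℂ Rᗮ := LinearEquiv.finiteDimensional eq
  have hdim : Module.finrank ℂ N = Module.finrank ℂ Rᗮ := by
    rw [h, LinearEquiv.finrank_eq eq]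
  let g : N ≃ₗ[ℂ] Rᗮ := LinearEquiv.ofFinrankEq N Rᗮ hdim
  let gg : N →L[ℂ] H := LinearMap.toContinuousLinearMap (Rᗮ.subtype ∘ₗ (g : N →ₗ[ℂ] Rᗮ))
  let F : H →L[ℂ] H := gg ∘L N.orthogonalProjectionOnto
  have hF : IsCompactOperator F := compact_of_finrange N _ _
  have hFx : ∀ x, F x = (g (N.orthogonalProjectionOnto x) : H) := fun _ => rfl
  have hP : ∀ n : N, N.orthogonalProjectionOnto (n : H) = n := fun n =>
    Submodule.orthogonalProjectionOnto_mem_subspace_eq_self n
  have hinj : Function.Injective (T + F : H →L[ℂ] H) := by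
    rw [injective_iff_map_eq_zero]
    intro x hx
    rw [_root_.add_apply, hFx] at hx
    have h1 : T x ∈ R := LinearMap.mem_range_self _ x
    have h3 : T x = -(g (N.orthogonalProjectionOnto x) : H) := eq_neg_of_add_eq_zero_left hx
    have h4 : T x = 0 := by
      have h5 : T x ∈ R ⊓ Rᗮ := ⟨h1, by rw [h3]; exact Rᗮ.neg_mem (g _).2⟩
      rw [hc.inf_eq_bot] at h5
      exact h5
    have h6 : g (N.orthogonalProjectionOnto x) = 0 := by
      apply Subtype.ext
      rw [h4] at h3
      exact neg_eq_zero.1 h3.symm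
    have h7 : N.orthogonalProjectionOnto x = 0 := g.injective (by rw [h6, map_zero])
    have h8 : x ∈ N := LinearMap.mem_ker.2 h4
    have h9 := hP ⟨x, h8⟩
    have h10 : (⟨x, h8⟩ : N) = 0 := by rw [← h9]; exact h7
    exact congrArg Subtype.val h10
  have hsurj : Function.Surjective (T + F : H →L[ℂ] H) := by
    intro y
    have hy : y ∈ R ⊔ Rᗮ := by rw [hc.sup_eq_top]; trivial
    obtain ⟨r, ⟨x, rfl⟩, w, hw, rfl⟩ := Submodule.mem_sup.1 hy
    refine ⟨x - (N.orthogonalProjectionOnto x : H) + (g.symm ⟨w, hw⟩ : N), ?_⟩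
    have h1 : T (N.orthogonalProjectionOnto x : H) = 0 :=
      LinearMap.mem_ker.1 (N.orthogonalProjectionOnto x).2
    have h2 : T ((g.symm ⟨w, hw⟩ : N) : H) = 0 := LinearMap.mem_ker.1 (g.symm ⟨w, hw⟩).2
    have h3 : N.orthogonalProjectionOnto
        (x - (N.orthogonalProjectionOnto x : H) + (g.symm ⟨w, hw⟩ : N)) = g.symm ⟨w, hw⟩ := by
      rw [map_add, map_sub, hP, hP, sub_self, zero_add]
    rw [_root_.add_apply, hFx, h3, map_add, map_sub, h1, h2, sub_zero, add_zero,
      LinearEquiv.apply_symm_apply]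
    rfl
  refine ⟨F, F, hF, hF, rfl, ?_, ?_, ?_⟩
  · intro x y hxy
    exact hinj (congrArg Prod.fst hxy)
  · rintro ⟨x, y⟩
    constructor
    · intro h0
      have h1 : (T + F) y = (T + F) x := by
        have : -((T + F) x) + (T + F) y = 0 := h0
        rw [← sub_eq_zero, ← this]; abel
      have h2 : y = x := hinj h1
      obtain ⟨z, hz⟩ := hsurj x
      refine ⟨z, ?_⟩
      rw [h2, ← hz]
      rfl
    · rintro ⟨z, hz⟩
      rw [← hz]
      change -((T + F) ((T + F) z)) + (T + F) ((T + F) z) = 0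
      rw [neg_add_cancel]
  · intro y
    obtain ⟨z, hz⟩ := hsurj y
    refine ⟨(0, z), ?_⟩
    change -((T + F) 0) + (T + F) z = y
    rw [map_zero, neg_zero, zero_add, hz]

end necessity

section shift

/-- shifted sequences are in `ℓ²` -/
lemma memlp_shift (x : lp (fun _ : ℕ => ℂ) 2) : Memℓp (fun n : ℕ => x (n + 1)) 2 := by
  have h := lp.memℓp x
  rw [memℓp_gen_iff (by norm_num)] at h ⊢
  exact (summable_nat_add_iff 1).2 h

/-- the backward shift as a linear map -/
noncomputable def bshiftLin : lp (fun _ : ℕ => ℂ) 2 →ₗ[ℂ] lp (fun _ : ℕ => ℂ) 2 where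
  toFun x := ⟨fun n => x (n + 1), memlp_shift x⟩
  map_add' x y := by ext n; rfl
  map_smul' c x := by ext n; rfl

lemma bshiftLin_apply (x : lp (fun _ : ℕ => ℂ) 2) (n : ℕ) : bshiftLin x n = x (n + 1) := rfl

lemma bshift_norm (x : lp (fun _ : ℕ => ℂ) 2) : ‖bshiftLin x‖ ≤ 1 * ‖x‖ := by
  rw [one_mul]
  have h1 := lp.norm_rpow_eq_tsum (p := 2) (by norm_num) x
  have h2 := lp.norm_rpow_eq_tsum (p := 2) (by norm_num) (bshiftLin x)
  have hs : Summable (fun n : ℕ => ‖x n‖ ^ (2 : ENNReal).toReal) := by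
    have h := lp.memℓp x
    rwa [memℓp_gen_iff (by norm_num)] at h
  have h3 : ‖bshiftLin x‖ ^ (2 : ENNReal).toReal ≤ ‖x‖ ^ (2 : ENNReal).toReal := by
    rw [h1, h2, hs.tsum_eq_zero_add]
    simp only [bshiftLin_apply]
    have : 0 ≤ ‖x 0‖ ^ (2 : ENNReal).toReal := by positivity
    linarith
  have h4 : (2 : ENNReal).toReal = 2 := by norm_num
  rw [h4] at h3
  rw [Real.rpow_two, Real.rpow_two] at h3
  exact (sq_le_sq₀ (norm_nonneg _) (norm_nonneg _)).1 h3

/-- the backward shift -/
noncomputable def bshift : lp (fun _ : ℕ => ℂ) 2 →L[ℂ] lp (fun _ : ℕ => ℂ) 2 :=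
  bshiftLin.mkContinuous 1 bshift_norm

lemma bshift_apply (x : lp (fun _ : ℕ => ℂ) 2) (n : ℕ) : bshift x n = x (n + 1) := rfl

lemma bshift_surj : Function.Surjective bshift := by
  intro y
  have hy : Memℓp (fun n : ℕ => (Nat.casesOn n 0 (fun k => y k) : ℂ)) 2 := by
    have h := lp.memℓp y
    rw [memℓp_gen_iff (by norm_num)] at h ⊢
    exact (summable_nat_add_iff 1).1 h
  refine ⟨⟨_, hy⟩, ?_⟩
  ext n
  rfl

lemma bshift_range : LinearMap.range bshift.toLinearMap = ⊤ :=
  LinearMap.range_eq_top.2 bshift_surj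

/-- evaluation at zero on the kernel -/
noncomputable def ev0 : LinearMap.ker bshift.toLinearMap →ₗ[ℂ] ℂ where
  toFun x := (x : lp (fun _ : ℕ => ℂ) 2) 0
  map_add' x y := rfl
  map_smul' c x := rfl

lemma ev0_inj : Function.Injective ev0 := by
  rw [injective_iff_map_eq_zero]
  intro x hx
  apply Subtype.ext
  have hx2 : bshift (x : lp (fun _ : ℕ => ℂ) 2) = 0 := LinearMap.mem_ker.1 x.2
  ext n
  cases n with
  | zero => exact hx
  | succ n =>
    have h1 := congrArg (fun z : lp (fun _ : ℕ => ℂ) 2 => z n) hx2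
    exact h1

lemma bshift_fredholm : IsFredholm bshift := by
  refine ⟨?_, ?_, ?_⟩
  · rw [bshift_range]
    simp
  · exact FiniteDimensional.of_injective ev0 ev0_inj
  · rw [bshift_range]
    infer_instance

lemma bshift_index : Module.finrank ℂ (LinearMap.ker bshift.toLinearMap)
    ≠ Module.finrank ℂ (lp (fun _ : ℕ => ℂ) 2 ⧸ LinearMap.range bshift.toLinearMap) := by
  have h1 : Module.finrank ℂ (lp (fun _ : ℕ => ℂ) 2 ⧸ LinearMap.range bshift.toLinearMap) = 0 := by
    rw [bshift_range]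
    exact Module.finrank_zero_of_subsingleton
  rw [h1]
  have hfin : FiniteDimensional ℂ (LinearMap.ker bshift.toLinearMap) :=
    FiniteDimensional.of_injective ev0 ev0_inj
  have hnt : Nontrivial (LinearMap.ker bshift.toLinearMap) := by
    refine ⟨⟨⟨lp.single 2 0 (1 : ℂ), ?_⟩, 0, ?_⟩⟩
    · rw [LinearMap.mem_ker]
      change bshift (lp.single 2 0 (1 : ℂ)) = 0
      ext n
      rw [bshift_apply]
      simp
    · intro h
      have h2 := congrArg (fun z : LinearMap.ker bshift.toLinearMap =>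
        (z : lp (fun _ : ℕ => ℂ) 2) 0) h
      simp at h2
  exact Module.finrank_pos.ne'

end shift

/-- Complete answer: for a Fredholm operator `T` on a complex Hilbert space, there are compact
`K₁, K₂` with `T + K₁`, `T + K₂` commuting and forming a Taylor invertible pair if and only if
`T` has index zero; in particular the answer to the question is negative, as witnessed by an
operator on `ℓ²`. -/
theorem result :
    (∀ (H : Type u) [NormedAddCommGroup H] [InnerProductSpace ℂ H] [CompleteSpace H]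
      (T : H →L[ℂ] H), IsFredholm T →
      (HasInvertiblePerturbation T ↔
        Module.finrank ℂ (LinearMap.ker T.toLinearMap)
          = Module.finrank ℂ (H ⧸ LinearMap.range T.toLinearMap))) ∧
    (∃ T : lp (fun _ : ℕ => ℂ) 2 →L[ℂ] lp (fun _ : ℕ => ℂ) 2,
      IsFredholm T ∧ ¬ HasInvertiblePerturbation T) := by
  refine ⟨fun H _ _ _ T hT => ⟨necessity hT, sufficiency hT⟩, bshift, bshift_fredholm, ?_⟩
  intro h
  exact bshift_index (necessity bshift_fredholm h)

end Pool.Agent.Results.MP_b56e9d_an.IndexZeroIff
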